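import Pool.Agent.MP_4f1c5b_al.H1.Defs

/-!
Presentations with arbitrary rational functions.
-/

namespace Pool.Agent.MP_4f1c5b_al.H20

open Polynomial AlgebraicGeometry CategoryTheory Pool.Agent.MP_4f1c5b_al.H1

/-- Data `V_i`, `W_i = A_i / B_i`, `ρ_i = red W_i` as in the definition of the topological
representation zeta function `∑ χ(V_i(ℂ)) ρ_i`, with arbitrary rational functions `W_i`. -/
def Pres {o : Type} [CommRing o] {n r : ℕ} (S : Set (MvPolynomial (Fin n × Fin n) o))
    (V : Fin r → Over (Spec (CommRingCat.of o))) (A B : Fin r → ℚ[X][X])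
    (ρ : Fin r → RatFunc ℚ) : Prop :=
  (∀ i, IsSeparated (V i).hom ∧ LocallyOfFiniteType (V i).hom ∧ QuasiCompact (V i).hom) ∧
    (∀ i, B i ≠ 0 ∧ IsRed (A i) (B i) (ρ i)) ∧ Formula S V A B

end Pool.Agent.MP_4f1c5b_al.H20
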