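import Pool.Agent.MP_4f1c5b_al.H20.Val
import Pool.Agent.MP_4f1c5b_al.H20.Defs
import Pool.Agent.MP_4f1c5b_al.H1.Euler

/-!
Definitions for the orbit method and for the elimination of a variable.
-/

namespace Pool.Agent.MP_4f1c5b_al.H20

open Classical IsLocalRing Polynomial Pool.Agent.MP_4f1c5b_al.H1

/-- The integers `1, …, N` are units. -/
def Tame (N : ℕ) (A : Type) [CommRing A] : Prop := ∀ k : ℕ, 0 < k → k ≤ N → IsUnit (k : A)

theorem Tame.mono {N M : ℕ} {A : Type} [CommRing A] (h : Tame N A) (hM : M ≤ N) : Tame M A :=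
  fun k h1 h2 => h k h1 (h2.trans hM)

theorem Tame.map {N : ℕ} {A A' : Type} [CommRing A] [CommRing A'] (h : Tame N A) (f : A →+* A') :
    Tame N A' := fun k h1 h2 => by simpa using (h k h1 h2).map f

theorem Tame.fac {N : ℕ} {A : Type} [CommRing A] (h : Tame N A) {k : ℕ} (hk : k ≤ N) :
    IsUnit (k.factorial : A) := by
  induction k with
  | zero => simp
  | succ k ih =>
    rw [Nat.factorial_succ, Nat.cast_mul]
    exact (h _ (Nat.succ_pos k) hk).mul (ih (by omega))

theorem tame_of_char {O : Type} [CommRing O] [IsLocalRing O] {N : ℕ}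
    (h : N < ringChar (ResidueField O)) : Tame N O := fun k h1 h2 => by
  rw [← residue_ne_zero_iff_isUnit, map_natCast, Ne, ringChar.spec]
  exact fun h3 => absurd (Nat.le_of_dvd h1 h3) (by omega)

section Padic

variable {O : Type} [CommRing O] [IsDomain O] [IsDiscreteValuationRing O]

/-- `t - c` and `w` have the same leading term. -/
def Ball (π c w t : O) : Prop := π ^ (vv w + 1) ∣ t - c - w

/-- The terms of the Taylor expansion of `f (c + w)`. -/
noncomputable def tay (f : O[X]) (c w : O) (u : ℕ) : O := (taylor c f).coeff u * w ^ u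

/-- Basic functions on a product. -/
def Ext {X T : Type} (B : Set (X → ℤ)) (π : O) (G : Set (X × T → O)) : Set (X × T → ℤ) :=
  {c | ∃ b ∈ B, c = fun z => b z.1} ∪ Bas π G

/-- A definable system of centres for the family `F`. -/
structure Prep {X I R : Type} [CommRing R] (π : O) (B : Set (X → ℤ)) (pt : X → R →+* O)
    (F : Set R[X]) (c : I → X → O) : Prop where
  zero : ∃ i, ∀ x, c i x = 0
  diff : ∀ i j, Df π B fun x => c i x - c j x
  val : ∀ f ∈ F, ∀ i, Df π B fun x => (f.map (pt x)).eval (c i x)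
  root : ∀ f ∈ F, ∀ x t, f.map (pt x) ≠ 0 → (f.map (pt x)).eval t = 0 → ∃ i, c i x = t

theorem tay_sum {f : O[X]} {N : ℕ} (h : f.natDegree ≤ N) (c w : O) :
    ∑ u ∈ Finset.range (N + 1), tay f c w u = f.eval (c + w) := by
  rw [add_comm c, ← taylor_eval, eval_eq_sum_range' (n := N + 1)
    (by rw [natDegree_taylor]; omega)]
  rfl

theorem fac_tay (f : O[X]) (c : O) (u : ℕ) :
    (derivative^[u] f).eval c = (u.factorial : O) * (taylor c f).coeff u := by
  rw [taylor_coeff, ← factorial_smul_hasseDeriv]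
  simp

/-- The Taylor terms are definable. -/
theorem df_tay [Finite (ResidueField O)] {π : O} (hπ : Irreducible π) {X : Type}
    {B : Set (X → ℤ)} {N : ℕ} (hN : Tame N O) {f : X → O[X]} {c w : X → O}
    (hf : ∀ u, Df π B fun x => (derivative^[u] (f x)).eval (c x)) (hw : Df π B w) :
    ∀ u ∈ Finset.range (N + 1), Df π B fun x => tay (f x) (c x) (w x) u := fun u hu =>
  (Df.cancel hπ (hf u) (Df.const (u.factorial : O)) fun x =>
    ⟨(hN.fac (by simpa [Nat.lt_succ_iff] using hu)).ne_zero, fac_tay _ _ _⟩).mul hπ (hw.pow hπ u)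

theorem tay_congr {π : O} (hπ : Irreducible π) (f : O[X]) (c : O) {w w' : O}
    (h : vv w = vv w' ∧ ac π w = ac π w') (u : ℕ) :
    vv (tay f c w u) = vv (tay f c w' u) ∧ ac π (tay f c w u) = ac π (tay f c w' u) := by
  have key : ∀ {a a' b b' : O}, (vv a = vv a' ∧ ac π a = ac π a') →
      (vv b = vv b' ∧ ac π b = ac π b') →
      vv (a * b) = vv (a' * b') ∧ ac π (a * b) = ac π (a' * b') := by
    intro a a' b b' h1 h2
    refine ⟨?_, by rw [ac_mul hπ, ac_mul hπ, h1.2, h2.2]⟩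
    have e1 : a = 0 ↔ a' = 0 := by rw [← ac_eq_zero hπ, h1.2, ac_eq_zero hπ]
    have e2 : b = 0 ↔ b' = 0 := by rw [← ac_eq_zero hπ, h2.2, ac_eq_zero hπ]
    by_cases ha : a = 0
    · rw [ha, e1.1 ha, zero_mul, zero_mul]
    by_cases hb : b = 0
    · rw [hb, e2.1 hb, mul_zero, mul_zero]
    rw [(rv_mul hπ ha hb).1, (rv_mul hπ (e1.not.1 ha) (e2.not.1 hb)).1, h1.1, h2.1]
  refine key ⟨rfl, rfl⟩ ?_
  induction u with
  | zero => simp
  | succ u ih => rw [pow_succ, pow_succ]; exact key ih h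

end Padic

/-- Products of the polynomials `1 - q ^ a Y ^ b`. -/
def Bin (q : ℚ) (D : ℚ[X]) : Prop :=
  D ∈ Submonoid.closure {F : ℚ[X] | ∃ (a : ℤ) (b : ℕ), 0 < b ∧ F = 1 - C (q ^ a) * X ^ b}

/-- A nilpotent filtration of an algebra over a ring in which `1, …, n` are units. -/
structure Fil (A S : Type) [CommRing A] [Ring S] [Algebra A S] (n : ℕ)
    (J : ℕ → Submodule A S) : Prop where
  tame : Tame n A
  mul : ∀ {i j : ℕ} {x y : S}, x ∈ J i → y ∈ J j → x * y ∈ J (i + j)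
  anti : Antitone J
  top : ∀ x ∈ J n, x = 0

/-- The truncated exponential. -/
noncomputable def ex (A : Type) {S : Type} [CommRing A] [Ring S] [Algebra A S] (n : ℕ) (x : S) :
    S := ∑ k ∈ Finset.range (n + 1), Ring.inverse (k.factorial : A) • x ^ k

theorem map_ex {A S A' S' : Type} [CommRing A] [Ring S] [Algebra A S] [CommRing A'] [Ring S']
    [Algebra A' S'] {n : ℕ} (h : Tame n A) (f0 : A →+* A') (f : S →+* S')
    (hf : ∀ (a : A) (s : S), f (a • s) = f0 a • f s) (x : S) :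
    f (ex A n x) = ex A' n (f x) := by
  simp only [ex, map_sum, hf, map_pow]
  refine Finset.sum_congr rfl fun k hk => ?_
  obtain ⟨u, hu⟩ := h.fac (k := k) (by simpa [Nat.lt_succ_iff] using hk)
  have h1 : (k.factorial : A') = (Units.map (f0 : A →* A') u : A'ˣ) := by simp [hu]
  rw [← hu, h1, Ring.inverse_unit, Ring.inverse_unit]
  simp

theorem fil_mat {R : Type} [CommRing R] {n : ℕ} (h : Tame n R) :
    Fil R (Matrix (Fin n) (Fin n) R) n (mt_J R n) :=
  ⟨h, fun hx hy => mt_J_mul hx hy le_rfl, fun _ _ hij _ hx => mt_J_mono hx hij,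
    fun _ hx => mt_J_top hx le_rfl⟩

/-- The properties of the truncated exponential. -/
structure ExKit (A S : Type) [CommRing A] [Ring S] [Algebra A S] (n : ℕ)
    (J : ℕ → Submodule A S) : Prop where
  sub : ∀ (i : ℕ) (x y : S), x ∈ J 1 → y ∈ J 1 → x - y ∈ J i →
    ex A n x - ex A n y - (x - y) ∈ J (i + 1)
  inj : ∀ x y : S, x ∈ J 1 → y ∈ J 1 → ex A n x = ex A n y → x = y
  surj : ∀ u ∈ J 1, ∃ z ∈ J 1, ex A n z = 1 + u
  mem : ∀ x ∈ J 1, ex A n x - 1 ∈ J 1
  add : ∀ x y : S, x ∈ J 1 → y ∈ J 1 → Commute x y → ex A n (x + y) = ex A n x * ex A n y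
  zero : ex A n (0 : S) = 1
  conj : ∀ g g' x : S, g * g' = 1 → g' * g = 1 → g * ex A n x * g' = ex A n (g * x * g')
  ad : ∀ x y : S, x ∈ J 1 → y ∈ J 1 → ex A n y * x * ex A n (-y) =
    ∑ k ∈ Finset.range (n + 1), Ring.inverse (k.factorial : A) • (fun z => y * z - z * y)^[k] x

/-- Lie polynomials in `x` and `y` of weight at least `k`. -/
inductive LF (A : Type) {S : Type} [CommRing A] [Ring S] [Algebra A S] (x y : S) : ℕ → S → Prop
  | x : LF A x y 1 x
  | y : LF A x y 1 y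
  | zero (k : ℕ) : LF A x y k 0
  | add {k : ℕ} {a b : S} : LF A x y k a → LF A x y k b → LF A x y k (a + b)
  | smul {k : ℕ} {a : S} (c : A) : LF A x y k a → LF A x y k (c • a)
  | br {i j : ℕ} {a b : S} : LF A x y i a → LF A x y j b → LF A x y (i + j) (a * b - b * a)
  | mono {k : ℕ} {a : S} : LF A x y (k + 1) a → LF A x y k a

/-- The abstract setting of the orbit method. -/
structure KD {Q A : Type} [Group Q] [AddCommGroup A] (e : A ≃ Q) (Ad : Q → A →+ A) : Prop where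
  conj : ∀ g x, e (Ad g x) = g * e x * g⁻¹
  neg : ∀ x, e (-x) = (e x)⁻¹
  nsmul : ∀ (k : ℕ) (x : A), e (k • x) = e x ^ k
  kv : ∃ Θ : A × A ≃ A × A, ∀ z, (∃ g, (Θ z).1 = Ad g z.1) ∧ (∃ g, (Θ z).2 = Ad g z.2) ∧
    e z.1 * e z.2 = e ((Θ z).1 + (Θ z).2)

/-- The coadjoint orbit. -/
def orb {Q A : Type} [AddCommGroup A] (Ad : Q → A →+ A) (ω : AddChar A ℂ) : Set (AddChar A ℂ) :=
  {ω' | ∃ g, ∀ x, ω' x = ω (Ad g x)}

/-- The characters whose restriction to `A'` is conjugate to that of `ω`. -/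
def cls {Q A : Type} [AddCommGroup A] (Ad : Q → A →+ A) (A' : AddSubgroup A) (ω : AddChar A ℂ) :
    Set (AddChar A ℂ) := {ω' | ∃ g, ∀ x ∈ A', ω' x = ω (Ad g x)}

/-- The representation `σ` belongs to the orbit of `ω`. -/
def Chr {Q A : Type} [Group Q] [AddCommGroup A] (e : A ≃ Q) (Ad : Q → A →+ A) {d : ℕ}
    (σ : Q →* Matrix (Fin d) (Fin d) ℂ) (ω : AddChar A ℂ) : Prop :=
  (orb Ad ω).ncard = d ^ 2 ∧ ∀ x, (d : ℂ) * (σ (e x)).trace = ∑ᶠ ω' ∈ orb Ad ω, ω' x

/-- `A'` is invariant and the invariant characters are those trivial on `A'`. -/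
def IsDer {Q A : Type} [AddCommGroup A] (Ad : Q → A →+ A) (A' : AddSubgroup A) : Prop :=
  (∀ g, ∀ x ∈ A', Ad g x ∈ A') ∧
    ∀ ω : AddChar A ℂ, (∀ g x, ω (Ad g x) = ω x) ↔ ∀ x ∈ A', ω x = 1

/-- A Lie algebra of strictly upper triangular matrices. -/
structure IsLie {R : Type} [CommRing R] {n : ℕ} (p : Submodule R (Matrix (Fin n) (Fin n) R)) :
    Prop where
  le : p ≤ mt_J R n 1
  br : ∀ x ∈ p, ∀ y ∈ p, x * y - y * x ∈ p

/-- The bracket. -/
def IsLie.b {R : Type} [CommRing R] {n : ℕ} {p : Submodule R (Matrix (Fin n) (Fin n) R)}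
    (h : IsLie p) (x y : p) : p := ⟨x.1 * y.1 - y.1 * x.1, h.br _ x.2 _ y.2⟩

/-- The derived algebra. -/
def IsLie.der {R : Type} [CommRing R] {n : ℕ} {p : Submodule R (Matrix (Fin n) (Fin n) R)}
    (h : IsLie p) : AddSubgroup p := AddSubgroup.closure {z | ∃ x y, z = h.b x y}

/-- The order of the radical of the form attached to `ω`. -/
noncomputable def IsLie.rad {R : Type} [CommRing R] {n : ℕ}
    {p : Submodule R (Matrix (Fin n) (Fin n) R)} (h : IsLie p) (ω : AddChar p ℂ) : ℕ :=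
  Nat.card {y : p // ∀ x, ω (h.b y x) = 1}

/-- The order of the stabiliser of the restriction of `ω` to the derived algebra. -/
noncomputable def IsLie.rad2 {R : Type} [CommRing R] {n : ℕ}
    {p : Submodule R (Matrix (Fin n) (Fin n) R)} (h : IsLie p) (ω : AddChar p ℂ) : ℕ :=
  Nat.card {y : p // ∀ x x', ω (h.b y (h.b x x')) = 1}

/-- The number of characters trivial on the derived algebra. -/
noncomputable def IsLie.kap {R : Type} [CommRing R] {n : ℕ}
    {p : Submodule R (Matrix (Fin n) (Fin n) R)} (h : IsLie p) : ℕ :=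
  Nat.card {l : AddChar p ℂ // ∀ x y, l (h.b x y) = 1}

/-- The group `P` is the exponential of `p`. -/
structure IsExp {R : Type} [CommRing R] {n : ℕ} (p : Submodule R (Matrix (Fin n) (Fin n) R))
    (P : Subgroup (GL (Fin n) R)) (e : p ≃ P) (Ad : P → p →+ p) : Prop where
  he : ∀ x, (e x).1.1 = ex R n x.1
  hAd : ∀ g x, (Ad g x).1 = g.1.1 * x.1 * (g⁻¹).1.1
  kd : KD e Ad

section Coord

variable {A : Type} [CommRing A] {D : ℕ}

/-- The matrix of structure constants. -/
def M0 (c : Fin D → Fin D → Fin D → A) : Matrix (Fin D × Fin D) (Fin D) A :=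
  fun jl k => c jl.1 jl.2 k

/-- The commutator matrix. -/
def M1 (c : Fin D → Fin D → Fin D → A) (y : Fin D → A) : Matrix (Fin D) (Fin D) A :=
  fun j i => ∑ k, c i j k * y k

/-- The matrix of double commutators. -/
def M2 (c : Fin D → Fin D → Fin D → A) (y : Fin D → A) : Matrix (Fin D × Fin D) (Fin D) A :=
  fun jl i => ∑ k, ∑ k', c jl.1 jl.2 k * c i k k' * y k'

/-- The order of the kernel. -/
noncomputable def kc {ι : Type} (M : Matrix ι (Fin D) A) : ℕ :=
  Nat.card {z : Fin D → A // M.mulVec z = 0}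

/-- The summand of the orbit formula. -/
noncomputable def FF1 (c : Fin D → Fin D → Fin D → A) (d : ℕ) (y : Fin D → A) : ℚ :=
  if d ^ 2 * kc (M1 c y) = Nat.card A ^ D then
    (kc (M2 c y) : ℚ) / ((Nat.card A : ℚ) ^ D * kc (M0 c)) else 0

/-- The orbit formula. -/
noncomputable def FF (c : Fin D → Fin D → Fin D → A) (d : ℕ) : ℚ := ∑ᶠ y, FF1 c d y

end Coord

/-- A basis of the Lie lattice of the group of `O`-points. -/
structure Lat {o O : Type} [CommRing o] [CommRing O] [Algebra o O] {n D : ℕ}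
    (S : Set (MvPolynomial (Fin n × Fin n) o)) (π : O) (b : Fin D → Matrix (Fin n) (Fin n) O)
    (c : Fin D → Fin D → Fin D → O) : Prop where
  mem : ∀ i, b i ∈ mt_J O n 1
  br : ∀ i j, b i * b j - b j * b i = ∑ k, c i j k • b k
  pure : ∀ (a : Fin D → O) (m : ℕ), (∀ r s, π ^ m ∣ (∑ i, a i • b i) r s) → ∀ i, π ^ m ∣ a i
  grp : ∀ g : GL (Fin n) O, g ∈ grp S O ↔ ∃ a : Fin D → O, g.1 = ex O n (∑ i, a i • b i)

/-- The ring `O / π ^ m`. -/
abbrev Rm {O : Type} [CommRing O] (π : O) (m : ℕ) : Type := O ⧸ Ideal.span {π ^ m}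

/-- The reduction map. -/
abbrev rm {O : Type} [CommRing O] (π : O) (m : ℕ) : O →+* Rm π m := Ideal.Quotient.mk _

/-- The model of level `m`. -/
structure Mdl {o O : Type} [CommRing o] [CommRing O] [Algebra o O] {n D : ℕ}
    (S : Set (MvPolynomial (Fin n × Fin n) o)) (π : O) (b : Fin D → Matrix (Fin n) (Fin n) O)
    (m : ℕ) (p : Submodule (Rm π m) (Matrix (Fin n) (Fin n) (Rm π m)))
    (P : Subgroup (GL (Fin n) (Rm π m))) (e : p ≃ P) (Ad : P → p →+ p)
    (ι : (Fin D → Rm π m) ≃ₗ[Rm π m] p) (f : grp S O →* P) : Prop where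
  lie : IsLie p
  exp : IsExp p P e Ad
  hι : ∀ a : Fin D → O, (ι fun i => rm π m (a i)).1 = (∑ i, a i • b i).map (rm π m)
  hf : ∀ g, (f g).1.1 = g.1.1.map (rm π m)
  surj : Function.Surjective f

/-- `g` is congruent to the identity modulo `π ^ m`. -/
def Cong {O : Type} [CommRing O] {n : ℕ} (π : O) (m : ℕ) (g : GL (Fin n) O) : Prop :=
  ∀ r s, π ^ m ∣ g.1 r s - (1 : Matrix (Fin n) (Fin n) O) r s

end Pool.Agent.MP_4f1c5b_al.H20
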