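import Mathlib

/-!
Presburger terms, definable predicates and Presburger-exponential functions.
-/

namespace Pool.Agent.MP_4f1c5b_al.H20

open Classical

/-- Integer valued functions generated by the basic functions `B`. -/
inductive PA {X : Type} (B : Set (X → ℤ)) : (X → ℤ) → Prop
  | base {b : X → ℤ} : b ∈ B → PA B b
  | const (c : ℤ) : PA B fun _ => c
  | add {a b : X → ℤ} : PA B a → PA B b → PA B fun x => a x + b x
  | neg {a : X → ℤ} : PA B a → PA B fun x => -a x
  | div {a : X → ℤ} (n : ℕ) : PA B a → PA B fun x => a x / (n : ℤ)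
  | ite {a b c : X → ℤ} : PA B a → PA B b → PA B c → PA B fun x => if 0 ≤ a x then b x else c x

/-- The algebra generated by the functions `a` and `q ^ a`. -/
inductive PP {X : Type} (q : ℚ) (B : Set (X → ℤ)) : (X → ℚ) → Prop
  | pa {a : X → ℤ} : PA B a → PP q B fun x => (a x : ℚ)
  | pow {a : X → ℤ} : PA B a → PP q B fun x => q ^ a x
  | const (c : ℚ) : PP q B fun _ => c
  | add {f g : X → ℚ} : PP q B f → PP q B g → PP q B fun x => f x + g x
  | mul {f g : X → ℚ} : PP q B f → PP q B g → PP q B fun x => f x * g x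

/-- Definable predicates. -/
def DP {X : Type} (B : Set (X → ℤ)) (P : X → Prop) : Prop :=
  ∃ a, PA B a ∧ ∀ x, P x ↔ 0 ≤ a x

/-- The basic functions on `X × ℤ`. -/
def Up {X : Type} (B : Set (X → ℤ)) : Set (X × ℤ → ℤ) :=
  {c | (∃ b ∈ B, c = fun z => b z.1) ∨ c = Prod.snd}

variable {X Y : Type} {B : Set (X → ℤ)} {q : ℚ}

theorem PA.congr {a b : X → ℤ} (h : PA B a) (e : ∀ x, a x = b x) : PA B b := by
  rwa [← funext e]

theorem PP.congr {a b : X → ℚ} (h : PP q B a) (e : ∀ x, a x = b x) : PP q B b := by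
  rwa [← funext e]

theorem DP.congr {P Q : X → Prop} (h : DP B P) (e : ∀ x, P x ↔ Q x) : DP B Q := by
  obtain ⟨a, ha, h⟩ := h
  exact ⟨a, ha, fun x => (e x).symm.trans (h x)⟩

theorem PA.sub {a b : X → ℤ} (ha : PA B a) (hb : PA B b) : PA B fun x => a x - b x :=
  (ha.add hb.neg).congr fun _ => (sub_eq_add_neg _ _).symm

theorem PA.nmul {a : X → ℤ} (ha : PA B a) (k : ℕ) : PA B fun x => (k : ℤ) * a x := by
  induction k with
  | zero => exact (PA.const 0).congr fun _ => by simp
  | succ k ih => exact (ih.add ha).congr fun _ => by push_cast; ring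

theorem PA.zmul {a : X → ℤ} (ha : PA B a) (k : ℤ) : PA B fun x => k * a x := by
  obtain ⟨n, rfl | rfl⟩ := k.eq_nat_or_neg
  · exact ha.nmul n
  · exact (ha.nmul n).neg.congr fun _ => by ring

theorem PA.mod {a : X → ℤ} (ha : PA B a) (n : ℕ) : PA B fun x => a x % (n : ℤ) :=
  (ha.sub ((ha.div n).nmul n)).congr fun _ => (Int.emod_def _ _).symm

theorem PA.sum {ι : Type} (s : Finset ι) {a : ι → X → ℤ} (h : ∀ i ∈ s, PA B (a i)) :
    PA B fun x => ∑ i ∈ s, a i x := by
  induction s using Finset.induction_on with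
  | empty => exact (PA.const 0).congr fun _ => by simp
  | insert i s hi ih =>
    exact ((h i (Finset.mem_insert_self _ _)).add
      (ih fun j hj => h j (Finset.mem_insert_of_mem hj))).congr fun _ => by
        rw [Finset.sum_insert hi]

theorem DP.ite {P : X → Prop} [DecidablePred P] {b c : X → ℤ} (hP : DP B P) (hb : PA B b)
    (hc : PA B c) : PA B fun x => if P x then b x else c x := by
  obtain ⟨a, ha, h⟩ := hP
  exact (ha.ite hb hc).congr fun x => by simp only [h x]

theorem DP.le {a b : X → ℤ} (ha : PA B a) (hb : PA B b) : DP B fun x => a x ≤ b x :=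
  ⟨_, hb.sub ha, fun _ => sub_nonneg.symm⟩

theorem DP.lt {a b : X → ℤ} (ha : PA B a) (hb : PA B b) : DP B fun x => a x < b x :=
  ⟨_, (hb.sub ha).add (PA.const (-1)), fun _ => by omega⟩

theorem DP.const (P : Prop) : DP B fun _ => P := by
  by_cases h : P
  · exact ⟨_, PA.const 0, fun _ => by simp [h]⟩
  · exact ⟨_, PA.const (-1), fun _ => by simp [h]⟩

theorem DP.not {P : X → Prop} (hP : DP B P) : DP B fun x => ¬ P x := by
  obtain ⟨a, ha, h⟩ := hP
  exact ⟨_, ha.neg.add (PA.const (-1)), fun x => by simp only [h x]; omega⟩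

theorem DP.and {P Q : X → Prop} (hP : DP B P) (hQ : DP B Q) : DP B fun x => P x ∧ Q x := by
  obtain ⟨b, hb, h'⟩ := hQ
  refine ⟨_, hP.ite hb (PA.const (-1)), fun x => ?_⟩
  by_cases h : P x <;> simp [h, h' x]

theorem DP.or {P Q : X → Prop} (hP : DP B P) (hQ : DP B Q) : DP B fun x => P x ∨ Q x :=
  (hP.not.and hQ.not).not.congr fun _ => by tauto

theorem DP.imp {P Q : X → Prop} (hP : DP B P) (hQ : DP B Q) : DP B fun x => P x → Q x :=
  (hP.not.or hQ).congr fun _ => by tauto

theorem DP.iff {P Q : X → Prop} (hP : DP B P) (hQ : DP B Q) : DP B fun x => P x ↔ Q x :=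
  ((hP.imp hQ).and (hQ.imp hP)).congr fun _ => by tauto

theorem DP.eq {a b : X → ℤ} (ha : PA B a) (hb : PA B b) : DP B fun x => a x = b x :=
  ((DP.le ha hb).and (DP.le hb ha)).congr fun _ => by omega

theorem DP.ball {ι : Type} (s : Finset ι) {P : ι → X → Prop} (h : ∀ i ∈ s, DP B (P i)) :
    DP B fun x => ∀ i ∈ s, P i x := by
  induction s using Finset.induction_on with
  | empty => exact (DP.const True).congr fun _ => by simp
  | insert i s hi ih =>
    exact ((h i (Finset.mem_insert_self _ _)).and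
      (ih fun j hj => h j (Finset.mem_insert_of_mem hj))).congr fun _ => by simp

theorem DP.bex {ι : Type} (s : Finset ι) {P : ι → X → Prop} (h : ∀ i ∈ s, DP B (P i)) :
    DP B fun x => ∃ i ∈ s, P i x :=
  (DP.ball s fun i hi => (h i hi).not).not.congr fun _ => by push Not; rfl

theorem DP.all {ι : Type} [Finite ι] {P : ι → X → Prop} (h : ∀ i, DP B (P i)) :
    DP B fun x => ∀ i, P i x := by
  have := Fintype.ofFinite ι
  exact (DP.ball Finset.univ fun i _ => h i).congr fun _ => by simp

theorem DP.ex {ι : Type} [Finite ι] {P : ι → X → Prop} (h : ∀ i, DP B (P i)) :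
    DP B fun x => ∃ i, P i x := by
  have := Fintype.ofFinite ι
  exact (DP.bex Finset.univ fun i _ => h i).congr fun _ => by simp

theorem PA.max {a b : X → ℤ} (ha : PA B a) (hb : PA B b) : PA B fun x => max (a x) (b x) :=
  ((DP.le ha hb).ite hb ha).congr fun _ => (max_def _ _).symm

theorem PA.min {a b : X → ℤ} (ha : PA B a) (hb : PA B b) : PA B fun x => min (a x) (b x) :=
  ((DP.le ha hb).ite ha hb).congr fun _ => (min_def _ _).symm

theorem PA.toNat {a : X → ℤ} (ha : PA B a) : PA B fun x => ((a x).toNat : ℤ) :=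
  (ha.max (PA.const 0)).congr fun _ => (Int.toNat_eq_max _).symm

/-- A function that agrees on finitely many definable pieces with terms is a term. -/
theorem PA.cover {ι : Type} [Finite ι] {P : ι → X → Prop} {a : ι → X → ℤ} {f : X → ℤ}
    (hP : ∀ i, DP B (P i)) (ha : ∀ i, PA B (a i)) (hc : ∀ x, ∃ i, P i x)
    (hf : ∀ i x, P i x → f x = a i x) : PA B f := by
  have := Fintype.ofFinite ι
  have key : ∀ s : Finset ι, ∃ g, PA B g ∧ ∀ x, (∃ i ∈ s, P i x) → f x = g x := by
    intro s
    induction s using Finset.induction_on with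
    | empty => exact ⟨_, PA.const 0, fun _ h => by simp at h⟩
    | insert i s hi ih =>
      obtain ⟨g, hg, h⟩ := ih
      refine ⟨_, (hP i).ite (ha i) hg, fun x hx => ?_⟩
      by_cases hi : P i x
      · simp [hi, hf i x hi]
      · simp only [hi, if_false]
        obtain ⟨j, hj, hx⟩ := hx
        rcases Finset.mem_insert.1 hj with rfl | hj
        · exact absurd hx hi
        · exact h x ⟨j, hj, hx⟩
  obtain ⟨g, hg, h⟩ := key Finset.univ
  exact hg.congr fun x => (h x (by simpa using hc x)).symm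

/-- A predicate that agrees on finitely many definable pieces with definable predicates. -/
theorem DP.cover {ι : Type} [Finite ι] {P : ι → X → Prop} {Q : ι → X → Prop} {R : X → Prop}
    (hP : ∀ i, DP B (P i)) (hQ : ∀ i, DP B (Q i)) (hc : ∀ x, ∃ i, P i x)
    (hf : ∀ i x, P i x → (R x ↔ Q i x)) : DP B R :=
  (DP.ex fun i => (hP i).and (hQ i)).congr fun x =>
    ⟨fun ⟨i, h, h'⟩ => (hf i x h).2 h', fun h =>
      (hc x).imp fun i hi => ⟨hi, (hf i x hi).1 h⟩⟩

theorem PP.smul {f : X → ℚ} (hf : PP q B f) (c : ℚ) : PP q B fun x => c * f x :=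
  (PP.const c).mul hf

theorem PP.neg {f : X → ℚ} (hf : PP q B f) : PP q B fun x => -f x :=
  (hf.smul (-1)).congr fun _ => by ring

theorem PP.sub {f g : X → ℚ} (hf : PP q B f) (hg : PP q B g) : PP q B fun x => f x - g x :=
  (hf.add hg.neg).congr fun _ => by ring

theorem PP.sum {ι : Type} (s : Finset ι) {a : ι → X → ℚ} (h : ∀ i ∈ s, PP q B (a i)) :
    PP q B fun x => ∑ i ∈ s, a i x := by
  induction s using Finset.induction_on with
  | empty => exact (PP.const 0).congr fun _ => by simp
  | insert i s hi ih =>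
    exact ((h i (Finset.mem_insert_self _ _)).add
      (ih fun j hj => h j (Finset.mem_insert_of_mem hj))).congr fun _ => by
        rw [Finset.sum_insert hi]

theorem PP.npow {f : X → ℚ} (hf : PP q B f) (k : ℕ) : PP q B fun x => f x ^ k := by
  induction k with
  | zero => exact (PP.const 1).congr fun _ => by simp
  | succ k ih => exact (ih.mul hf).congr fun _ => by ring

theorem PP.aeval {f : X → ℚ} (hf : PP q B f) (P : Polynomial ℚ) :
    PP q B fun x => P.eval (f x) := by
  induction P using Polynomial.induction_on' with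
  | add p r hp hr => exact (hp.add hr).congr fun _ => by simp
  | monomial n a => exact ((hf.npow n).smul a).congr fun _ => by simp

theorem DP.ppite {P : X → Prop} [DecidablePred P] {f g : X → ℚ} (hP : DP B P) (hf : PP q B f)
    (hg : PP q B g) : PP q B fun x => if P x then f x else g x := by
  have h1 : PP q B fun x => ((if P x then 1 else 0 : ℤ) : ℚ) :=
    PP.pa (hP.ite (PA.const 1) (PA.const 0))
  refine ((h1.mul hf).add (((PP.const 1).sub h1).mul hg)).congr fun x => ?_
  by_cases h : P x <;> simp [h]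

/-- Substitution. -/
theorem PA.comp {B' : Set (Y → ℤ)} (φ : Y → X) (hφ : ∀ b ∈ B, PA B' fun y => b (φ y))
    {a : X → ℤ} (ha : PA B a) : PA B' fun y => a (φ y) := by
  induction ha with
  | base h => exact hφ _ h
  | const c => exact PA.const c
  | add _ _ h1 h2 => exact h1.add h2
  | neg _ h => exact h.neg
  | div n _ h => exact h.div n
  | ite _ _ _ h1 h2 h3 => exact h1.ite h2 h3

theorem PP.comp {B' : Set (Y → ℤ)} (φ : Y → X) (hφ : ∀ b ∈ B, PA B' fun y => b (φ y))
    {a : X → ℚ} (ha : PP q B a) : PP q B' fun y => a (φ y) := by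
  induction ha with
  | pa h => exact PP.pa (h.comp φ hφ)
  | pow h => exact PP.pow (h.comp φ hφ)
  | const c => exact PP.const c
  | add _ _ h1 h2 => exact h1.add h2
  | mul _ _ h1 h2 => exact h1.mul h2

theorem DP.comp {B' : Set (Y → ℤ)} (φ : Y → X) (hφ : ∀ b ∈ B, PA B' fun y => b (φ y))
    {P : X → Prop} (h : DP B P) : DP B' fun y => P (φ y) := by
  obtain ⟨a, ha, h⟩ := h
  exact ⟨_, ha.comp φ hφ, fun y => h _⟩

/-- Terms are functions of the basic functions. -/
theorem PA.det {a : X → ℤ} (ha : PA B a) {x y : X} (h : ∀ b ∈ B, b x = b y) : a x = a y := by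
  induction ha with
  | base hb => exact h _ hb
  | const c => rfl
  | add _ _ h1 h2 => simp only [h1, h2]
  | neg _ h => simp only [h]
  | div n _ h => simp only [h]
  | ite _ _ _ h1 h2 h3 => simp only [h1, h2, h3]

theorem PP.det {a : X → ℚ} (ha : PP q B a) {x y : X} (h : ∀ b ∈ B, b x = b y) : a x = a y := by
  induction ha with
  | pa hb => simp only [hb.det h]
  | pow hb => simp only [hb.det h]
  | const c => rfl
  | add _ _ h1 h2 => simp only [h1, h2]
  | mul _ _ h1 h2 => simp only [h1, h2]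

theorem PA.up {a : X → ℤ} (ha : PA B a) : PA (Up B) fun z : X × ℤ => a z.1 :=
  ha.comp Prod.fst fun b hb => PA.base (Or.inl ⟨b, hb, rfl⟩)

theorem PP.up {a : X → ℚ} (ha : PP q B a) : PP q (Up B) fun z : X × ℤ => a z.1 :=
  ha.comp Prod.fst fun b hb => PA.base (Or.inl ⟨b, hb, rfl⟩)

theorem DP.up {P : X → Prop} (h : DP B P) : DP (Up B) fun z : X × ℤ => P z.1 :=
  h.comp Prod.fst fun b hb => PA.base (Or.inl ⟨b, hb, rfl⟩)

theorem PA.snd : PA (Up B) fun z : X × ℤ => z.2 := PA.base (Or.inr rfl)

/-- Decision trees with leaves affine in the second variable. -/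
inductive T1 {X : Type} (B : Set (X → ℤ)) : (X → ℤ → ℤ) → Prop
  | leaf {α : X → ℤ} (l : ℤ) : PA B α → T1 B fun x s => α x + l * s
  | itx {γ : X → ℤ} {a b : X → ℤ → ℤ} : PA B γ → T1 B a → T1 B b →
      T1 B fun x s => if 0 ≤ γ x then a x s else b x s
  | its {γ : X → ℤ} {a b : X → ℤ → ℤ} : PA B γ → T1 B a → T1 B b →
      T1 B fun x s => if γ x ≤ s then a x s else b x s

/-- Sums and threshold trees of the functions `ψ(x) P(s) q ^ (l s)`. -/
inductive N1 {X : Type} (q : ℚ) (B : Set (X → ℤ)) : (X → ℤ → ℚ) → Prop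
  | atom {ψ : X → ℚ} (P : Polynomial ℚ) (l : ℤ) : PP q B ψ →
      N1 q B fun x s => ψ x * P.eval (s : ℚ) * q ^ (l * s)
  | add {f g : X → ℤ → ℚ} : N1 q B f → N1 q B g → N1 q B fun x s => f x s + g x s
  | its {γ : X → ℤ} {f g : X → ℤ → ℚ} : PA B γ → N1 q B f → N1 q B g →
      N1 q B fun x s => if γ x ≤ s then f x s else g x s

end Pool.Agent.MP_4f1c5b_al.H20
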