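import Pool.Agent.MP_4f1c5b_al.H20.Lie

/-!
The statements of the steps of the proof.
-/

namespace Pool.Agent.MP_4f1c5b_al.H20

open Classical IsLocalRing Polynomial Filter Pool.Agent.MP_4f1c5b_al.H1

/-! ### Presburger part -/

def PwS : Prop := ∀ (X : Type) (B : Set (X → ℤ)) (a : X × ℤ → ℤ), PA (Up B) a →
  ∃ n : ℕ, 0 < n ∧ ∀ r : ℤ, T1 B fun x s => a (x, r + n * s)

def PnS : Prop := ∀ (X : Type) (q : ℚ) (B : Set (X → ℤ)) (Φ : X × ℤ → ℚ), q ≠ 0 →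
  PP q (Up B) Φ → ∃ n : ℕ, 0 < n ∧ ∀ r : ℤ, N1 q B fun x s => Φ (x, r + n * s)

def SumzS : Prop := ∀ (X : Type) (q : ℚ) (B : Set (X → ℤ)) (Φ : X × ℤ → ℚ) (β : X → ℕ), q ≠ 0 →
  PP q (Up B) Φ → PA B (fun x => (β x : ℤ)) →
    PP q B fun x => ∑ t ∈ Finset.range (β x), Φ (x, (t : ℤ))

def RecS : Prop := ∀ (q : ℚ) (Φ : ℤ → ℚ), q ≠ 0 → PP q {id} Φ →
  ∃ D T : ℚ[X], Bin q D ∧ (D : PowerSeries ℚ) * PowerSeries.mk (fun j : ℕ => Φ j) = T

/-! ### Elimination of the variables -/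

def LocS : Prop := ∀ (O : Type) [CommRing O] [IsDomain O] [IsDiscreteValuationRing O]
  [IsAdicComplete (maximalIdeal O) O] (π : O) (N : ℕ) (f : O[X]) (c w : O), Irreducible π →
  Tame N O → f.natDegree ≤ N → w ≠ 0 →
    (Canc π (Finset.range (N + 1)) (tay f c w) →
      ∃ l t, derivative^[l] f ≠ 0 ∧ Ball π c w t ∧ (derivative^[l] f).eval t = 0) ∧
    (f ≠ 0 → ∀ t t', Ball π c w t → Ball π c w t' → t ≠ t' → f.eval t = 0 → f.eval t' = 0 →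
      ∃ l t, 0 < l ∧ derivative^[l] f ≠ 0 ∧ Ball π c w t ∧ (derivative^[l] f).eval t = 0)

def StepS : Prop := ∀ (O : Type) [CommRing O] [IsDomain O] [IsDiscreteValuationRing O]
  [IsAdicComplete (maximalIdeal O) O] [Finite (ResidueField O)] (π : O) (N : ℕ)
  (X I R : Type) [Finite I] [CommRing R] (B : Set (X → ℤ)) (pt : X → R →+* O) (H : Set R[X])
  (f : R[X]) (c : I → X → O), Irreducible π → Tame N O → (∀ h ∈ H, derivative h ∈ H) →
  derivative f ∈ H → f.natDegree ≤ N → (∀ h ∈ H, h.natDegree ≤ N) → Prep π B pt H c →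
  (∀ i, Df π B fun x => (f.map (pt x)).eval (c i x)) →
    ∃ (I' : Type) (_ : Finite I') (c' : I' → X → O), Prep π B pt (insert f H) c'

def DiagS : Prop := ∀ (R : Type) [CommRing R] (F : Set R[X]) (N : ℕ), F.Finite →
  (∀ f ∈ F, derivative f ∈ F) → (∀ f ∈ F, f.natDegree ≤ N) →
  ∃ G : Set R, G.Finite ∧ ∀ (O : Type) [CommRing O] [IsDomain O] [IsDiscreteValuationRing O]
    [IsAdicComplete (maximalIdeal O) O] [Finite (ResidueField O)] (π : O) (X : Type)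
    (B : Set (X → ℤ)) (pt : X → R →+* O), Irreducible π → Tame N O →
    (∀ g ∈ G, Df π B fun x => pt x g) →
      ∃ (I : Type) (_ : Finite I) (c : I → X → O), Prep π B pt F c

/-- The ball `c i + π ^ a w + π ^ (a + 1) O` contains no centre, and `i` is the first index of a
closest centre. -/
def Free {O : Type} [CommRing O] {s : ℕ} (π : O) (c : Fin s → O) (i : Fin s) (a : ℕ) (w : O) :
    Prop := (∀ j, ¬ π ^ (a + 1) ∣ c j - c i - π ^ a * w) ∧ ∀ j, j < i → ¬ π ^ a ∣ c j - c i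

def PartS : Prop := ∀ (O : Type) [CommRing O] [IsDomain O] [IsDiscreteValuationRing O]
  [Fintype (ResidueField O)] (π : O) (s m : ℕ) (c : Fin s → O) (l : ResidueField O → O)
  (h : O → ℚ), Irreducible π → (∃ i, c i = 0) → (∀ ξ, residue O (l ξ) = ξ) →
  (∀ t t', π ^ m ∣ t - t' → h t = h t') →
  (∀ i a ξ, ξ ≠ 0 → Free π c i a (l ξ) → ∀ t, π ^ (a + 1) ∣ t - c i - π ^ a * l ξ →
    h t = h (c i + π ^ a * l ξ)) →
  sm1 π m h = ∑ i, (if ∀ j, j < i → ¬ π ^ m ∣ c j - c i then h (c i) else 0) +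
    ∑ i, ∑ ξ ∈ Finset.univ.erase (0 : ResidueField O), ∑ a ∈ Finset.range m,
      if Free π c i a (l ξ) then
        (Nat.card (ResidueField O) : ℚ) ^ (m - a - 1) * h (c i + π ^ a * l ξ) else 0

def Sum1S : Prop := ∀ (R : Type) [CommRing R] (F : Set R[X]), F.Finite →
  ∃ (G : Set R) (N : ℕ), G.Finite ∧ ∀ (O : Type) [CommRing O] [IsDomain O]
    [IsDiscreteValuationRing O] [IsAdicComplete (maximalIdeal O) O] [Finite (ResidueField O)]
    (π : O) (X : Type) (B : Set (X → ℤ)) (pt : X → R →+* O) (m : X → ℕ) (h : X × O → ℚ),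
    Irreducible π → Tame N O → (∀ g ∈ G, Df π B fun x => pt x g) → PA B (fun x => (m x : ℤ)) →
    PP (Nat.card (ResidueField O))
      (Ext B π {k | ∃ f ∈ F, k = fun z : X × O => (f.map (pt z.1)).eval z.2}) h →
    (∀ x t t', π ^ m x ∣ t - t' → h (x, t) = h (x, t')) →
      PP (Nat.card (ResidueField O)) B fun x => sm1 π (m x) fun t => h (x, t)

def SumDS : Prop := ∀ (D : ℕ) (R : Type) [CommRing R] (F : Set (MvPolynomial (Fin D) R)),
  F.Finite → ∃ (G : Set R) (N : ℕ), G.Finite ∧ ∀ (O : Type) [CommRing O] [IsDomain O]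
    [IsDiscreteValuationRing O] [IsAdicComplete (maximalIdeal O) O] [Finite (ResidueField O)]
    (π : O) (X : Type) (B : Set (X → ℤ)) (pt : X → R →+* O) (m : X → ℕ)
    (h : X × (Fin D → O) → ℚ),
    Irreducible π → Tame N O → (∀ g ∈ G, Df π B fun x => pt x g) → PA B (fun x => (m x : ℤ)) →
    PP (Nat.card (ResidueField O))
      (Ext B π {k | ∃ f ∈ F, k = fun z : X × (Fin D → O) =>
        MvPolynomial.eval₂ (pt z.1) z.2 f}) h →
    (∀ x y y', (∀ i, π ^ m x ∣ y i - y' i) → h (x, y) = h (x, y')) →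
      PP (Nat.card (ResidueField O)) B fun x => sm π (m x) fun y => h (x, y)

/-! ### The orbit method -/

def ExS : Prop := ∀ (A S : Type) [CommRing A] [Ring S] [Algebra A S] (n : ℕ)
  (J : ℕ → Submodule A S), Fil A S n J → ExKit A S n J

def DexpS : Prop := ∀ (A S : Type) [CommRing A] [Ring S] [Algebra A S] (n : ℕ)
  (J : ℕ → Submodule A S) (δ : S →ₗ[A] S) (z : S), Fil A S n J →
  (∀ a b, δ (a * b) = δ a * b + a * δ b) → z ∈ J 1 → δ z ∈ J 1 →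
    δ (ex A n z) = ex A n z * ∑ j ∈ Finset.range n,
      Ring.inverse ((j + 1).factorial : A) • (fun w => w * z - z * w)^[j] (δ z)

def BchS : Prop := ∀ (A S : Type) [CommRing A] [Ring S] [Algebra A S] (n : ℕ)
  (J : ℕ → Submodule A S) (x y : S), Fil A S n J → x ∈ J 1 → y ∈ J 1 →
    ∃ z, LF A x y 2 z ∧ ex A n x * ex A n y = ex A n (x + y + z)

def KvS : Prop := ∀ (A S : Type) [CommRing A] [Ring S] [Algebra A S] (n : ℕ)
  (J : ℕ → Submodule A S) (x y : S), Fil A S n J → x ∈ J 1 → y ∈ J 1 →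
    ∃ φ ψ, LF A x y 1 φ ∧ LF A x y 1 ψ ∧ ex A n x * ex A n y =
      ex A n (ex A n φ * x * ex A n (-φ) + ex A n ψ * y * ex A n (-ψ))

def ThS : Prop := ∀ (R : Type) [CommRing R] [Finite R] (n : ℕ)
  (p : Submodule R (Matrix (Fin n) (Fin n) R)), Tame n R → IsLie p →
    ∃ (P : Subgroup (GL (Fin n) R)) (e : p ≃ P) (Ad : P → p →+ p), IsExp p P e Ad

def FkS : Prop := ∀ (Q A : Type) [Group Q] [AddCommGroup A] [Finite Q] [Finite A] (e : A ≃ Q)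
  (Ad : Q → A →+ A), KD e Ad →
    (∀ (d : ℕ) (σ : Q →* Matrix (Fin d) (Fin d) ℂ), Irred σ → ∃ ω, Chr e Ad σ ω) ∧
    ∀ ω, ∃ (d : ℕ) (σ : Q →* Matrix (Fin d) (Fin d) ℂ), Irred σ ∧ Chr e Ad σ ω

def TwaS : Prop := ∀ (Q A : Type) [Group Q] [AddCommGroup A] [Finite Q] [Finite A] (e : A ≃ Q)
  (Ad : Q → A →+ A) (A' : AddSubgroup A), KD e Ad → IsDer Ad A' →
    (∀ (d : ℕ) (σ σ' : Q →* Matrix (Fin d) (Fin d) ℂ) (ω ω' : AddChar A ℂ), Irred σ → Irred σ' →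
      Chr e Ad σ ω → Chr e Ad σ' ω' → ((∃ (χ : Q →* ℂˣ) (P : GL (Fin d) ℂ),
        ∀ g, σ' g = (χ g : ℂ) • (P.1 * σ g * (P⁻¹).1)) ↔ ω' ∈ cls Ad A' ω)) ∧
    (∀ ω ω', ω' ∈ cls Ad A' ω → (orb Ad ω').ncard = (orb Ad ω).ncard) ∧
    (∀ ω, ω ∈ cls Ad A' ω) ∧
    (∀ ω ω', ω' ∈ cls Ad A' ω → cls Ad A' ω' = cls Ad A' ω) ∧
    ∀ (d : ℕ) (σ : Q →* Matrix (Fin d) (Fin d) ℂ) (ω : AddChar A ℂ) (A0 : AddSubgroup A),
      Chr e Ad σ ω → (∀ g, ∀ x ∈ A0, Ad g x ∈ A0) → (∀ x ∈ A0, ω x = 1) →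
        ∀ x ∈ A0, σ (e x) = 1

def TwbS : Prop := ∀ (Q A : Type) [Group Q] [AddCommGroup A] [Finite Q] [Finite A]
  [TopologicalSpace Q] [DiscreteTopology Q] (e : A ≃ Q) (Ad : Q → A →+ A) (A' : AddSubgroup A),
  KD e Ad → IsDer Ad A' → ∀ d : ℕ, (rt Q d : ℚ) = ∑ᶠ ω : AddChar A ℂ,
    if (orb Ad ω).ncard = d ^ 2 then (1 : ℚ) / (cls Ad A' ω).ncard else 0

def OrbS : Prop := ∀ (R : Type) [CommRing R] [Finite R] (n : ℕ)
  (p : Submodule R (Matrix (Fin n) (Fin n) R)) (h : IsLie p) (P : Subgroup (GL (Fin n) R))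
  (e : p ≃ P) (Ad : P → p →+ p), Tame n R → IsExp p P e Ad →
    IsDer Ad h.der ∧ (∀ ω, (orb Ad ω).ncard * h.rad ω = Nat.card p) ∧
      ∀ ω, (cls Ad h.der ω).ncard * h.rad2 ω = Nat.card p * h.kap

def CooS : Prop := ∀ (R : Type) [CommRing R] [Finite R] (n D : ℕ)
  (p : Submodule R (Matrix (Fin n) (Fin n) R)) (h : IsLie p) (ι : (Fin D → R) ≃ₗ[R] p)
  (c : Fin D → Fin D → Fin D → R) (ψ : AddChar R ℂ) (d : ℕ),
  (∀ a : R, a ≠ 0 → ∃ b, ψ (a * b) ≠ 1) →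
  (∀ i j, h.b (ι (Pi.single i 1)) (ι (Pi.single j 1)) = ι (c i j)) →
    (∑ᶠ ω : AddChar p ℂ, if d ^ 2 * h.rad ω = Nat.card p then
      (h.rad2 ω : ℚ) / ((Nat.card p : ℚ) * h.kap) else 0) = FF c d

def GenS : Prop := ∀ (O : Type) [CommRing O] [IsDomain O] [IsDiscreteValuationRing O]
  [Finite (ResidueField O)] (π : O) (m : ℕ), Irreducible π →
    Finite (Rm π m) ∧ Nat.card (Rm π m) = Nat.card (ResidueField O) ^ m ∧
      ∃ ψ : AddChar (Rm π m) ℂ, ∀ a, a ≠ 0 → ∃ b, ψ (a * b) ≠ 1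

def Lat1S : Prop := ∀ (o K : Type) [CommRing o] [Field K] [CharZero K] [Algebra o K] (n : ℕ)
  (S : Set (MvPolynomial (Fin n × Fin n) o)), IsGroup S →
    ∃ W : Submodule K (Matrix (Fin n) (Fin n) K), IsLie W ∧ ∀ x ∈ mt_J K n 1, (x ∈ W ↔
      ∀ P ∈ S, MvPolynomial.aeval (fun ij : Fin n × Fin n => ex K n x ij.1 ij.2) P = 0)

def LatS : Prop := ∀ (o O : Type) [CommRing o] [CommRing O] [IsDomain O]
  [IsDiscreteValuationRing O] [CharZero O] [Algebra o O] (n : ℕ)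
  (S : Set (MvPolynomial (Fin n × Fin n) o)) (π : O), IsGroup S → Irreducible π → Tame n O →
    ∃ (D : ℕ) (b : Fin D → Matrix (Fin n) (Fin n) O) (c : Fin D → Fin D → Fin D → O),
      D ≤ n * n ∧ Lat S π b c

def LevS : Prop := ∀ (O : Type) [CommRing O] [IsDomain O] [IsDiscreteValuationRing O]
  [TopologicalSpace O] (n : ℕ) (π : O) (Γ : Subgroup (GL (Fin n) O)),
  IsAdic (maximalIdeal O) → Irreducible π →
    (∀ (d : ℕ) (f : Γ →* Matrix (Fin d) (Fin d) ℂ), Continuous f →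
      ∃ M, ∀ g : Γ, Cong π M g.1 → f g = 1) ∧
    ∀ (m : ℕ) (A : Type) [Monoid A] [TopologicalSpace A] (f : Γ →* A),
      (∀ g : Γ, Cong π m g.1 → f g = 1) → Continuous f

def TrS : Prop := ∀ (Γ Q : Type) [Group Γ] [TopologicalSpace Γ] [Group Q] [TopologicalSpace Q]
  [DiscreteTopology Q] (f : Γ →* Q) (d : ℕ), Function.Surjective f → Continuous f →
  (∀ a : Irr Γ d, ∃ b : Irr Γ d, Twist a b ∧ ∀ g, f g = 1 → b.1 g = 1) → rt Γ d = rt Q d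

def ModS : Prop := ∀ (o O : Type) [CommRing o] [CommRing O] [IsDomain O]
  [IsDiscreteValuationRing O] [Finite (ResidueField O)] [Algebra o O] (n D : ℕ)
  (S : Set (MvPolynomial (Fin n × Fin n) o)) (π : O) (b : Fin D → Matrix (Fin n) (Fin n) O)
  (c : Fin D → Fin D → Fin D → O) (m : ℕ), Irreducible π → Tame n O → Lat S π b c →
    ∃ (p : Submodule (Rm π m) (Matrix (Fin n) (Fin n) (Rm π m)))
      (P : Subgroup (GL (Fin n) (Rm π m))) (e : p ≃ P) (Ad : P → p →+ p)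
      (ι : (Fin D → Rm π m) ≃ₗ[Rm π m] p) (f : grp S O →* P), Mdl S π b m p P e Ad ι f

def Bd1S : Prop := ∀ (o O : Type) [CommRing o] [CommRing O] [IsDomain O]
  [IsDiscreteValuationRing O] [Finite (ResidueField O)] [Algebra o O]
  (n D : ℕ) (S : Set (MvPolynomial (Fin n × Fin n) o)) (π : O)
  (b : Fin D → Matrix (Fin n) (Fin n) O) (c : Fin D → Fin D → Fin D → O),
  Irreducible π → Lat S π b c → ∃ ν : ℕ, ∀ (j M : ℕ)
    (p : Submodule (Rm π M) (Matrix (Fin n) (Fin n) (Rm π M)))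
    (P : Subgroup (GL (Fin n) (Rm π M))) (e : p ≃ P) (Ad : P → p →+ p)
    (ι : (Fin D → Rm π M) ≃ₗ[Rm π M] p) (f : grp S O →* P) (h : Mdl S π b M p P e Ad ι f)
    (ω : AddChar p ℂ), 2 * j + ν ≤ M →
    (Nat.card (ResidueField O) ^ j) ^ 2 * h.lie.rad ω = Nat.card p →
      ∃ ω' : AddChar p ℂ, (∀ x ∈ h.lie.der, ω' x = ω x) ∧
        ∀ x : p, ω' (rm π M (π ^ (2 * j + ν)) • x) = 1

def BdS : Prop := ∀ (o O : Type) [CommRing o] [CommRing O] [IsDomain O]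
  [IsDiscreteValuationRing O] [Finite (ResidueField O)] [Algebra o O] [TopologicalSpace O]
  (n D : ℕ) (S : Set (MvPolynomial (Fin n × Fin n) o)) (π : O)
  (b : Fin D → Matrix (Fin n) (Fin n) O) (c : Fin D → Fin D → Fin D → O),
  IsAdic (maximalIdeal O) → Irreducible π → Tame n O → Lat S π b c →
    ∃ ν : ℕ, ∀ (j : ℕ) (a : Irr (grp S O) (Nat.card (ResidueField O) ^ j)),
      ∃ a' : Irr (grp S O) (Nat.card (ResidueField O) ^ j), Twist a a' ∧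
        ∀ g : grp S O, Cong π (2 * j + ν) g.1 → a'.1 g = 1

def KirS : Prop := ∀ (o O : Type) [CommRing o] [CommRing O] [IsDomain O]
  [IsDiscreteValuationRing O] [Finite (ResidueField O)] [Algebra o O] [TopologicalSpace O]
  (n D : ℕ) (S : Set (MvPolynomial (Fin n × Fin n) o)) (π : O)
  (b : Fin D → Matrix (Fin n) (Fin n) O) (c : Fin D → Fin D → Fin D → O),
  IsAdic (maximalIdeal O) → Irreducible π → Tame n O → Lat S π b c →
    ∃ ν : ℕ, ∀ j : ℕ, (rt (grp S O) (Nat.card (ResidueField O) ^ j) : ℚ) =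
      FF (fun i k l => rm π (2 * j + ν) (c i k l)) (Nat.card (ResidueField O) ^ j)

def ImS : Prop := ∀ (O : Type) [CommRing O] [IsDomain O] [IsDiscreteValuationRing O]
  [Finite (ResidueField O)] (π : O) (ι : Type) [Fintype ι] (D m : ℕ) (M : Matrix ι (Fin D) O),
  Irreducible π → ∃ e : ℕ,
    kc (M.map (rm π m)) * Nat.card (ResidueField O) ^ e = Nat.card (ResidueField O) ^ (m * D) ∧
    (∀ (k : ℕ) (r : Fin k → ι) (s : Fin k → Fin D), (M.submatrix r s).det ≠ 0 →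
      (k * m : ℤ) - vv (M.submatrix r s).det ≤ e) ∧
    ∃ k ≤ D, ∃ (r : Fin k → ι) (s : Fin k → Fin D), (M.submatrix r s).det ≠ 0 ∧
      (e : ℤ) = (k * m : ℤ) - vv (M.submatrix r s).det

def PpS : Prop := ∀ D : ℕ, ∃ N : ℕ, ∀ (O : Type) [CommRing O] [IsDomain O]
  [IsDiscreteValuationRing O] [IsAdicComplete (maximalIdeal O) O] [Finite (ResidueField O)]
  (π : O) (c : Fin D → Fin D → Fin D → O) (ν : ℕ), Irreducible π → Tame N O →
    ∃ Φ : ℤ → ℚ, PP (Nat.card (ResidueField O)) {id} Φ ∧ ∀ j : ℕ, Φ j =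
      FF (fun i k l => rm π (2 * j + ν) (c i k l)) (Nat.card (ResidueField O) ^ j)

def PoleS : Prop := ∀ (o : Type) [CommRing o] (n : ℕ) (S : Set (MvPolynomial (Fin n × Fin n) o)),
  IsGroup S → ∃ N : ℕ, ∀ (O : Type) [CommRing O] [IsDomain O] [IsDiscreteValuationRing O]
    [CharZero O] [Algebra o O] [IsAdicComplete (maximalIdeal O) O] [Finite (ResidueField O)]
    [TopologicalSpace O], IsAdic (maximalIdeal O) → N ≤ ringChar (ResidueField O) →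
      ∃ D T : ℚ[X], Bin (Nat.card (ResidueField O)) D ∧ (D : PowerSeries ℚ) *
        PowerSeries.mk (fun j : ℕ => (rt (grp S O) (Nat.card (ResidueField O) ^ j) : ℚ)) = T

/-! ### Removal of the bad factors of the denominators -/

def Key1S : Prop := ∀ φ : ℚ[X][X], φ ≠ 0 →
  (∀ N : ℕ, ∃ (p f : ℕ) (a : ℤ) (b : ℕ) (y : ℂ), p.Prime ∧ N ≤ p ∧ 0 < f ∧ 0 < b ∧
    aeval y (φ.map (evalRingHom ((p : ℚ) ^ f))) = 0 ∧ ((p : ℂ) ^ f) ^ a * y ^ b = 1) →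
  ∃ (a : ℤ) (b : ℕ), 0 < b ∧ {q : ℕ | 0 < q ∧ ∃ y : ℂ,
    aeval y (φ.map (evalRingHom (q : ℚ))) = 0 ∧ (q : ℂ) ^ a * y ^ b = 1}.Infinite

def Key2S : Prop :=
  (∀ (φ : ℚ[X][X]) (a : ℤ) (b : ℕ), Irreducible φ → 0 < φ.natDegree → 0 < b →
    {q : ℕ | 0 < q ∧ ∃ y : ℂ,
      aeval y (φ.map (evalRingHom (q : ℚ))) = 0 ∧ (q : ℂ) ^ a * y ^ b = 1}.Infinite →
    Associated φ (X - 1) ∨ rd_Good φ) ∧
  (∀ φ : ℚ[X][X], φ ≠ 0 → φ.natDegree = 0 → rd_Good φ) ∧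
  ∀ φ : ℚ[X][X], φ ≠ 0 → ev φ (1 + PowerSeries.X) yser ≠ 0

def DirS : Prop := ∀ (q : ℕ) (r : ℕ → ℕ) (P B : ℚ[X]), 2 ≤ q → B ≠ 0 →
  (∀ᶠ s : ℝ in atTop, HasSum (fun d : ℕ => (r d : ℝ) * (d : ℝ) ^ (-s))
    (aeval ((q : ℝ) ^ (-s)) P / aeval ((q : ℝ) ^ (-s)) B)) →
  (B : PowerSeries ℚ) * PowerSeries.mk (fun j : ℕ => (r (q ^ j) : ℚ)) = P

end Pool.Agent.MP_4f1c5b_al.H20
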