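import Pool.Agent.MP_4f1c5b_al.H20.Pres

/-!
Valuation, angular component, definable functions with values in a discrete valuation ring.
-/

namespace Pool.Agent.MP_4f1c5b_al.H20

open Classical IsLocalRing

variable {O : Type} [CommRing O] [IsDomain O] [IsDiscreteValuationRing O]

/-- The valuation, with value `0` at `0`. -/
noncomputable def vv (x : O) : ℕ := (IsDiscreteValuationRing.addVal O x).toNat

/-- The angular component, with value `0` at `0`. -/
noncomputable def ac (π x : O) : ResidueField O :=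
  residue O (if h : π ^ vv x ∣ x then h.choose else 0)

/-- The leading terms of the family cancel in its sum. -/
def Canc {ι : Type} (π : O) (s : Finset ι) (g : ι → O) : Prop :=
  ∃ m : ℕ, (∀ u ∈ s, π ^ m ∣ g u) ∧ (∃ u ∈ s, ¬ π ^ (m + 1) ∣ g u) ∧ π ^ (m + 1) ∣ ∑ u ∈ s, g u

/-- Definable functions to the residue field. -/
def FD {X F : Type} (B : Set (X → ℤ)) (e : X → F) : Prop := ∀ ξ, DP B fun x => e x = ξ

/-- The valuation and the angular component of `g` are definable. -/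
def Df {X : Type} (π : O) (B : Set (X → ℤ)) (g : X → O) : Prop :=
  PA B (fun x => (vv (g x) : ℤ)) ∧ FD B fun x => ac π (g x)

/-- The basic functions attached to a family of functions to `O`. -/
def Bas {X : Type} (π : O) (G : Set (X → O)) : Set (X → ℤ) :=
  {b | ∃ g ∈ G, b = (fun x => (vv (g x) : ℤ)) ∨
    ∃ ξ, b = fun x => if ac π (g x) = ξ then 0 else -1}

/-- The sum of `h` over representatives of `(O / π ^ m) ^ ι`. -/
noncomputable def sm {ι : Type} (π : O) (m : ℕ) (h : (ι → O) → ℚ) : ℚ :=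
  ∑ᶠ u : ι → O ⧸ Ideal.span {π ^ m}, h fun i => Quotient.out (u i)

/-- The sum of `h` over representatives of `O / π ^ m`. -/
noncomputable def sm1 (π : O) (m : ℕ) (h : O → ℚ) : ℚ :=
  ∑ᶠ u : O ⧸ Ideal.span {π ^ m}, h (Quotient.out u)

variable {π : O}

theorem vv_zero : vv (0 : O) = 0 := by simp [vv]

theorem ac_zero : ac π (0 : O) = 0 := by
  have h : π ^ vv (0 : O) ∣ 0 := dvd_zero _
  have h1 := h.choose_spec
  rw [ac, dif_pos h]
  generalize h.choose = c at h1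
  rw [vv_zero, pow_zero, one_mul] at h1
  rw [← h1, map_zero]

theorem rv_of (hπ : Irreducible π) {x u : O} {k : ℕ} (hu : IsUnit u) (h : x = π ^ k * u) :
    vv x = k ∧ ac π x = residue O u := by
  obtain ⟨u, rfl⟩ := hu
  have h1 : vv x = k := by
    rw [vv, IsDiscreteValuationRing.addVal_def x u hπ k (by rw [h, mul_comm])]; rfl
  refine ⟨h1, ?_⟩
  have h2 : π ^ vv x ∣ x := by rw [h1, h]; exact dvd_mul_right _ _
  have h3 := h2.choose_spec
  rw [ac, dif_pos h2]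
  generalize h2.choose = c at h3
  rw [h1] at h3
  rw [mul_left_cancel₀ (pow_ne_zero k hπ.ne_zero) (h3.symm.trans h)]

theorem rv_spec (hπ : Irreducible π) {x : O} (hx : x ≠ 0) :
    ∃ u, IsUnit u ∧ x = π ^ vv x * u ∧ ac π x = residue O u := by
  obtain ⟨k, u, h⟩ := IsDiscreteValuationRing.eq_unit_mul_pow_irreducible hx hπ
  have h' : x = π ^ k * u := by rw [h, mul_comm]
  obtain ⟨h1, h2⟩ := rv_of hπ u.isUnit h'
  exact ⟨u, u.isUnit, by rw [h1]; exact h', h2⟩

theorem res_zero (hπ : Irreducible π) {x : O} : residue O x = 0 ↔ π ∣ x := by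
  rw [residue_eq_zero_iff, (IsDiscreteValuationRing.irreducible_iff_uniformizer π).1 hπ,
    Ideal.mem_span_singleton]

theorem unit_iff (hπ : Irreducible π) {x : O} : IsUnit x ↔ ¬ π ∣ x := by
  rw [← res_zero hπ, ← ne_eq, residue_ne_zero_iff_isUnit]

theorem ac_eq_zero (hπ : Irreducible π) {x : O} : ac π x = 0 ↔ x = 0 := by
  refine ⟨fun h => by_contra fun hx => ?_, fun h => h ▸ ac_zero⟩
  obtain ⟨u, hu, -, h2⟩ := rv_spec hπ hx
  exact (residue_ne_zero_iff_isUnit u).2 hu (h2 ▸ h)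

theorem pow_dvd_iff (hπ : Irreducible π) {x : O} {k : ℕ} : π ^ k ∣ x ↔ x = 0 ∨ k ≤ vv x := by
  by_cases hx : x = 0
  · simp [hx]
  obtain ⟨u, hu, h1, -⟩ := rv_spec hπ hx
  simp only [hx, false_or]
  conv_lhs => rw [h1]
  rw [hu.dvd_mul_right, pow_dvd_pow_iff hπ.ne_zero hπ.not_isUnit]

theorem rv_mul (hπ : Irreducible π) {x y : O} (hx : x ≠ 0) (hy : y ≠ 0) :
    vv (x * y) = vv x + vv y ∧ ac π (x * y) = ac π x * ac π y := by
  obtain ⟨u, hu, h1, h2⟩ := rv_spec hπ hx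
  obtain ⟨w, hw, h3, h4⟩ := rv_spec hπ hy
  rw [h2, h4, ← map_mul]
  refine rv_of hπ (hu.mul hw) ?_
  conv_lhs => rw [h1, h3]
  ring

theorem ac_mul (hπ : Irreducible π) (x y : O) : ac π (x * y) = ac π x * ac π y := by
  by_cases hx : x = 0
  · simp [hx, ac_zero]
  by_cases hy : y = 0
  · simp [hy, ac_zero]
  exact (rv_mul hπ hx hy).2

theorem rv_eq_iff (hπ : Irreducible π) {t w : O} (hw : w ≠ 0) :
    (vv t = vv w ∧ ac π t = ac π w) ↔ π ^ (vv w + 1) ∣ t - w := by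
  obtain ⟨u, hu, h1, h2⟩ := rv_spec hπ hw
  constructor
  · rintro ⟨h3, h4⟩
    have ht : t ≠ 0 := fun h => hw ((ac_eq_zero hπ).1 (by rw [← h4, h, ac_zero]))
    obtain ⟨u', -, h5, h6⟩ := rv_spec hπ ht
    rw [h2, h6, ← sub_eq_zero, ← map_sub, res_zero hπ] at h4
    obtain ⟨c, hc⟩ := h4
    refine ⟨c, ?_⟩
    rw [h3] at h5
    calc t - w = π ^ vv w * (u' - u) := by rw [mul_sub, ← h5, ← h1]
      _ = _ := by rw [hc]; ring
  · rintro ⟨c, hc⟩
    have h3 : residue O (u + π * c) = residue O u := by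
      rw [map_add, (res_zero hπ).2 (dvd_mul_right _ _), add_zero]
    rw [h2, ← h3]
    refine rv_of hπ ?_ ?_
    · rw [← residue_ne_zero_iff_isUnit, h3, residue_ne_zero_iff_isUnit]; exact hu
    · rw [mul_add, ← h1, ← mul_assoc, ← pow_succ, ← hc]; ring

/-- The leading coefficient of a sum at level `m`. -/
theorem lead (hπ : Irreducible π) {ι : Type} (s : Finset ι) (g : ι → O) (m : ℕ)
    (h : ∀ u ∈ s, π ^ m ∣ g u) :
    (π ^ (m + 1) ∣ ∑ u ∈ s, g u ↔ ∑ u ∈ s, (if vv (g u) = m then ac π (g u) else 0) = 0) ∧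
    (¬ π ^ (m + 1) ∣ ∑ u ∈ s, g u → vv (∑ u ∈ s, g u) = m ∧
      ac π (∑ u ∈ s, g u) = ∑ u ∈ s, (if vv (g u) = m then ac π (g u) else 0)) := by
  choose! c hc using h
  have h1 : ∑ u ∈ s, g u = π ^ m * ∑ u ∈ s, c u := by
    rw [Finset.mul_sum]; exact Finset.sum_congr rfl hc
  have h2 : ∑ u ∈ s, (if vv (g u) = m then ac π (g u) else 0) = residue O (∑ u ∈ s, c u) := by
    rw [map_sum]
    refine Finset.sum_congr rfl fun u hu => ?_
    by_cases hcu : IsUnit (c u)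
    · obtain ⟨h3, h4⟩ := rv_of hπ hcu (hc u hu)
      rw [if_pos h3, h4]
    · rw [unit_iff hπ, not_not] at hcu
      rw [(res_zero hπ).2 hcu]
      split_ifs with h3
      · have h4 : π ^ (m + 1) ∣ g u := by
          rw [hc u hu, pow_succ]; exact mul_dvd_mul_left _ hcu
        rcases (pow_dvd_iff hπ).1 h4 with h5 | h5
        · rw [h5, ac_zero]
        · omega
      · rfl
  have h3 : π ^ (m + 1) ∣ ∑ u ∈ s, g u ↔ π ∣ ∑ u ∈ s, c u := by
    rw [h1, pow_succ, mul_dvd_mul_iff_left (pow_ne_zero m hπ.ne_zero)]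
  rw [h2, h3, res_zero hπ]
  exact ⟨Iff.rfl, fun h => rv_of hπ ((unit_iff hπ).2 h) h1⟩

theorem canc_iff (hπ : Irreducible π) {ι : Type} (s : Finset ι) (g : ι → O) :
    Canc π s g ↔ ∃ u0 ∈ s, g u0 ≠ 0 ∧ (∀ u ∈ s, π ^ vv (g u0) ∣ g u) ∧
      ∑ u ∈ s, (if vv (g u) = vv (g u0) then ac π (g u) else 0) = 0 := by
  constructor
  · rintro ⟨m, h1, ⟨u0, hu0, h2⟩, h3⟩
    have h4 := (pow_dvd_iff hπ).1 (h1 u0 hu0)
    rw [pow_dvd_iff hπ] at h2
    push Not at h2
    have h5 : vv (g u0) = m := by have := h4.resolve_left h2.1; omega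
    exact ⟨u0, hu0, h2.1, h5 ▸ h1, h5 ▸ (lead hπ s g m h1).1.1 h3⟩
  · rintro ⟨u0, hu0, h1, h2, h3⟩
    refine ⟨_, h2, ⟨u0, hu0, ?_⟩, (lead hπ s g _ h2).1.2 h3⟩
    rw [pow_dvd_iff hπ]; push Not; exact ⟨h1, by omega⟩

theorem exists_min (hπ : Irreducible π) {ι : Type} (s : Finset ι) (g : ι → O) :
    (∀ u ∈ s, g u = 0) ∨ ∃ u0 ∈ s, g u0 ≠ 0 ∧ ∀ u ∈ s, π ^ vv (g u0) ∣ g u := by
  by_cases h : (s.filter fun u => g u ≠ 0).Nonempty
  · obtain ⟨u0, h0, h1⟩ := Finset.exists_min_image _ (fun u => vv (g u)) h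
    rw [Finset.mem_filter] at h0
    refine Or.inr ⟨u0, h0.1, h0.2, fun u hu => (pow_dvd_iff hπ).2 ?_⟩
    exact or_iff_not_imp_left.2 fun h2 => h1 u (Finset.mem_filter.2 ⟨hu, h2⟩)
  · exact Or.inl fun u hu => by_contra fun h2 => h ⟨u, Finset.mem_filter.2 ⟨hu, h2⟩⟩

theorem dvd_congr (hπ : Irreducible π) {x y : O} (h : vv x = vv y ∧ ac π x = ac π y) (k : ℕ) :
    π ^ k ∣ x ↔ π ^ k ∣ y := by
  rw [pow_dvd_iff hπ, pow_dvd_iff hπ, ← ac_eq_zero hπ, ← ac_eq_zero hπ (x := y), h.1, h.2]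

theorem Canc.congr (hπ : Irreducible π) {ι : Type} {s : Finset ι} {g g' : ι → O}
    (h : ∀ u ∈ s, vv (g u) = vv (g' u) ∧ ac π (g u) = ac π (g' u)) (hc : Canc π s g) :
    Canc π s g' := by
  obtain ⟨m, h1, ⟨u0, hu0, h2⟩, h3⟩ := hc
  have h4 : ∀ u ∈ s, π ^ m ∣ g' u := fun u hu => (dvd_congr hπ (h u hu) m).1 (h1 u hu)
  refine ⟨m, h4, ⟨u0, hu0, fun h5 => h2 ((dvd_congr hπ (h u0 hu0) _).2 h5)⟩, ?_⟩
  rw [(lead hπ s g' m h4).1]
  refine Eq.trans ?_ ((lead hπ s g m h1).1.1 h3)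
  exact Finset.sum_congr rfl fun u hu => by rw [(h u hu).1, (h u hu).2]

/-- Without cancellation the leading term of a sum depends only on those of the summands. -/
theorem rv_sum (hπ : Irreducible π) {ι : Type} {s : Finset ι} {g g' : ι → O}
    (h : ∀ u ∈ s, vv (g u) = vv (g' u) ∧ ac π (g u) = ac π (g' u)) (hc : ¬ Canc π s g) :
    vv (∑ u ∈ s, g u) = vv (∑ u ∈ s, g' u) ∧ ac π (∑ u ∈ s, g u) = ac π (∑ u ∈ s, g' u) := by
  rcases exists_min hπ s g with h0 | ⟨u0, hu0, h1, h2⟩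
  · have h0' : ∀ u ∈ s, g' u = 0 := fun u hu =>
      (ac_eq_zero hπ).1 (by rw [← (h u hu).2, h0 u hu, ac_zero])
    rw [Finset.sum_eq_zero h0, Finset.sum_eq_zero h0']; exact ⟨rfl, rfl⟩
  have h4 : ∀ u ∈ s, π ^ vv (g u0) ∣ g' u := fun u hu => (dvd_congr hπ (h u hu) _).1 (h2 u hu)
  have e : ∑ u ∈ s, (if vv (g u) = vv (g u0) then ac π (g u) else 0) =
      ∑ u ∈ s, (if vv (g' u) = vv (g u0) then ac π (g' u) else 0) :=
    Finset.sum_congr rfl fun u hu => by rw [(h u hu).1, (h u hu).2]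
  have h5 : ¬ π ^ (vv (g u0) + 1) ∣ ∑ u ∈ s, g u := fun h5 =>
    hc ((canc_iff hπ s g).2 ⟨u0, hu0, h1, h2, (lead hπ s g _ h2).1.1 h5⟩)
  have h6 : ¬ π ^ (vv (g u0) + 1) ∣ ∑ u ∈ s, g' u := by
    rw [(lead hπ s g' _ h4).1, ← e, ← (lead hπ s g _ h2).1]; exact h5
  obtain ⟨a1, a2⟩ := (lead hπ s g _ h2).2 h5
  obtain ⟨b1, b2⟩ := (lead hπ s g' _ h4).2 h6
  rw [a1, a2, b1, b2, e]; exact ⟨rfl, rfl⟩

/-- A vanishing sum with a nonzero summand has cancellation. -/
theorem canc_of_zero (hπ : Irreducible π) {ι : Type} {s : Finset ι} {g : ι → O}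
    (h : ∑ u ∈ s, g u = 0) (h1 : ∃ u ∈ s, g u ≠ 0) : Canc π s g := by
  rcases exists_min hπ s g with h0 | ⟨u0, hu0, h2, h3⟩
  · obtain ⟨u, hu, h1⟩ := h1
    exact absurd (h0 u hu) h1
  · refine ⟨_, h3, ⟨u0, hu0, ?_⟩, h ▸ dvd_zero _⟩
    rw [pow_dvd_iff hπ]; push Not; exact ⟨h2, by omega⟩

section FD

variable {X Y F : Type} {B : Set (X → ℤ)}

theorem FD.const (c : F) : FD B fun _ => c := fun ξ => DP.const (c = ξ)

theorem FD.pred [Finite F] {e : X → F} (h : FD B e) (P : F → Prop) : DP B fun x => P (e x) :=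
  (DP.ex fun ξ => (h ξ).and (DP.const (P ξ))).congr fun _ => by simp

theorem FD.pred2 [Finite F] {e e' : X → F} (h : FD B e) (h' : FD B e') (P : F → F → Prop) :
    DP B fun x => P (e x) (e' x) :=
  (DP.ex fun ξ => (h ξ).and (h'.pred (P ξ))).congr fun _ => by simp

theorem FD.ite {P : X → Prop} [DecidablePred P] {e e' : X → F} (hP : DP B P) (h : FD B e)
    (h' : FD B e') : FD B fun x => if P x then e x else e' x := fun ξ =>
  ((hP.and (h ξ)).or (hP.not.and (h' ξ))).congr fun x => by by_cases h : P x <;> simp [h]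

theorem FD.sum [Finite F] [AddCommMonoid F] {ι : Type} (s : Finset ι) {e : ι → X → F}
    (h : ∀ i ∈ s, FD B (e i)) : FD B fun x => ∑ i ∈ s, e i x := by
  induction s using Finset.induction_on with
  | empty => exact fun ξ => (DP.const ((0 : F) = ξ)).congr fun _ => by simp
  | insert i s hi ih =>
    exact fun ξ => ((h i (Finset.mem_insert_self _ _)).pred2
      (ih fun j hj => h j (Finset.mem_insert_of_mem hj)) fun a b => a + b = ξ).congr fun _ => by
        simp only [Finset.sum_insert hi]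

end FD

section Df

variable {X Y : Type} {B : Set (X → ℤ)} {g h : X → O}

theorem Df.congr (hg : Df π B g) (e : ∀ x, vv (g x) = vv (h x) ∧ ac π (g x) = ac π (h x)) :
    Df π B h :=
  ⟨hg.1.congr fun x => by rw [(e x).1], fun ξ => (hg.2 ξ).congr fun x => by simp only [(e x).2]⟩

theorem Df.eq (hg : Df π B g) (e : ∀ x, g x = h x) : Df π B h := by rwa [← funext e]

theorem Df.const (c : O) : Df π B fun _ => c := ⟨PA.const _, FD.const _⟩

theorem Df.comp {B' : Set (Y → ℤ)} (φ : Y → X) (hφ : ∀ b ∈ B, PA B' fun y => b (φ y))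
    (hg : Df π B g) : Df π B' fun y => g (φ y) :=
  ⟨hg.1.comp φ hφ, fun ξ => (hg.2 ξ).comp φ hφ⟩

theorem Df.up (hg : Df π B g) : Df π (Up B) fun z : X × ℤ => g z.1 :=
  ⟨hg.1.up, fun ξ => (hg.2 ξ).up⟩

theorem Df.zero (hπ : Irreducible π) (hg : Df π B g) : DP B fun x => g x = 0 :=
  (hg.2 0).congr fun _ => ac_eq_zero hπ

theorem Df.dvd (hπ : Irreducible π) (hg : Df π B g) {a : X → ℕ} (ha : PA B fun x => (a x : ℤ)) :
    DP B fun x => π ^ a x ∣ g x :=
  ((hg.zero hπ).or (DP.le ha hg.1)).congr fun _ => by rw [pow_dvd_iff hπ, Nat.cast_le]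

theorem Df.ite {P : X → Prop} [DecidablePred P] (hP : DP B P) (hg : Df π B g) (hh : Df π B h) :
    Df π B fun x => if P x then g x else h x :=
  ⟨(hP.ite hg.1 hh.1).congr fun x => by by_cases h : P x <;> simp [h],
    fun ξ => (FD.ite hP hg.2 hh.2 ξ).congr fun x => by by_cases h : P x <;> simp [h]⟩

theorem Df.cover {ι : Type} [Finite ι] {P : ι → X → Prop} {a : ι → X → O}
    (hP : ∀ i, DP B (P i)) (ha : ∀ i, Df π B (a i)) (hc : ∀ x, ∃ i, P i x)
    (hf : ∀ i x, P i x → vv (g x) = vv (a i x) ∧ ac π (g x) = ac π (a i x)) : Df π B g :=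
  ⟨PA.cover hP (fun i => (ha i).1) hc fun i x h => by rw [(hf i x h).1],
    fun ξ => DP.cover hP (fun i => (ha i).2 ξ) hc fun i x h => by simp only [(hf i x h).2]⟩

theorem Df.pipow (hπ : Irreducible π) {a : X → ℕ} (ha : PA B fun x => (a x : ℤ)) :
    Df π B fun x => π ^ a x := by
  have h : ∀ k : ℕ, vv (π ^ k) = k ∧ ac π (π ^ k) = residue O 1 := fun k =>
    rv_of hπ isUnit_one (mul_one _).symm
  exact ⟨ha.congr fun x => by rw [(h _).1],
    fun ξ => (DP.const (residue O 1 = ξ)).congr fun x => by simp only [(h _).2]⟩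

theorem Df.of_bas {G : Set (X → O)} (hB : ∀ b ∈ Bas π G, PA B b) (hg : g ∈ G) : Df π B g :=
  ⟨hB _ ⟨g, hg, Or.inl rfl⟩, fun ξ => ⟨_, hB _ ⟨g, hg, Or.inr ⟨ξ, rfl⟩⟩, fun x => by
    by_cases h : ac π (g x) = ξ <;> simp [h]⟩⟩

theorem bas_comp {G : Set (X → O)} {B' : Set (Y → ℤ)} (φ : Y → X)
    (h : ∀ g ∈ G, Df π B' fun y => g (φ y)) : ∀ b ∈ Bas π G, PA B' fun y => b (φ y) := by
  rintro b ⟨g, hg, rfl | ⟨ξ, rfl⟩⟩
  · exact (h g hg).1
  · exact ((h g hg).2 ξ).ite (PA.const 0) (PA.const (-1))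

theorem bas_det {G : Set (X → O)} {x y : X}
    (h : ∀ g ∈ G, vv (g x) = vv (g y) ∧ ac π (g x) = ac π (g y)) : ∀ b ∈ Bas π G, b x = b y := by
  rintro b ⟨g, hg, rfl | ⟨ξ, rfl⟩⟩
  · simp only [(h g hg).1]
  · simp only [(h g hg).2]

variable [Finite (ResidueField O)]

theorem Df.mul (hπ : Irreducible π) (hg : Df π B g) (hh : Df π B h) :
    Df π B fun x => g x * h x := by
  refine ⟨(((hg.zero hπ).or (hh.zero hπ)).ite (PA.const 0) (hg.1.add hh.1)).congr fun x => ?_,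
    fun ξ => (hg.2.pred2 hh.2 fun a b => a * b = ξ).congr fun x => by simp only [ac_mul hπ]⟩
  split_ifs with h0
  · simp only [mul_eq_zero.2 h0, vv_zero]; rfl
  · push Not at h0
    simp only [(rv_mul hπ h0.1 h0.2).1]; push_cast; rfl

theorem Df.pow (hπ : Irreducible π) (hg : Df π B g) (k : ℕ) : Df π B fun x => g x ^ k := by
  induction k with
  | zero => exact (Df.const 1).eq fun _ => by simp
  | succ k ih => exact (ih.mul hπ hg).eq fun _ => by ring

theorem Df.neg (hπ : Irreducible π) (hg : Df π B g) : Df π B fun x => -g x :=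
  ((Df.const (-1)).mul hπ hg).eq fun _ => by ring

/-- Division. -/
theorem Df.cancel (hπ : Irreducible π) {k : X → O} (hg : Df π B g) (hh : Df π B h)
    (e : ∀ x, h x ≠ 0 ∧ g x = h x * k x) : Df π B k := by
  refine ⟨((hg.zero hπ).ite (PA.const 0) (hg.1.sub hh.1)).congr fun x => ?_,
    fun ξ => (hg.2.pred2 hh.2 fun a b => a = b * ξ).congr fun x => ?_⟩
  · obtain ⟨h1, h2⟩ := e x
    split_ifs with h0
    · rw [h2, mul_eq_zero] at h0
      rw [h0.resolve_left h1, vv_zero]; rfl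
    · rw [h2] at h0 ⊢
      rw [(rv_mul hπ h1 (right_ne_zero_of_mul h0)).1]; push_cast; ring
  · obtain ⟨h1, h2⟩ := e x
    simp only [h2, ac_mul hπ]
    exact mul_right_inj' fun h => h1 ((ac_eq_zero hπ).1 h)

theorem Df.rveq (hg : Df π B g) (hh : Df π B h) :
    DP B fun x => vv (g x) = vv (h x) ∧ ac π (g x) = ac π (h x) :=
  ((DP.eq hg.1 hh.1).and (hg.2.pred2 hh.2 Eq)).congr fun _ => by rw [Nat.cast_inj]

theorem fd_lead {ι : Type} (s : Finset ι) {g : ι → X → O} (hg : ∀ u ∈ s, Df π B (g u))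
    {a : X → ℕ} (ha : PA B fun x => (a x : ℤ)) :
    FD B fun x => ∑ u ∈ s, (if vv (g u x) = a x then ac π (g u x) else 0) :=
  FD.sum s fun u hu => FD.ite ((DP.eq (hg u hu).1 ha).congr fun _ => Nat.cast_inj)
    (hg u hu).2 (FD.const 0)

theorem Df.canc (hπ : Irreducible π) {ι : Type} (s : Finset ι) {g : ι → X → O}
    (hg : ∀ u ∈ s, Df π B (g u)) : DP B fun x => Canc π s fun u => g u x :=
  (DP.bex s fun u0 h0 => ((hg u0 h0).zero hπ).not.and
    ((DP.ball s fun u hu => (hg u hu).dvd hπ (hg u0 h0).1).and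
      (fd_lead s hg (hg u0 h0).1 0))).congr fun x => (canc_iff hπ s fun u => g u x).symm

/-- A sum in which cancellation only occurs when the sum vanishes. -/
theorem Df.sum (hπ : Irreducible π) {ι : Type} (s : Finset ι) {g : ι → X → O}
    (hg : ∀ u ∈ s, Df π B (g u))
    (hc : ∀ x, (Canc π s fun u => g u x) → ∑ u ∈ s, g u x = 0) :
    Df π B fun x => ∑ u ∈ s, g u x := by
  let P : Option s → X → Prop := fun i x => match i with
    | none => (∀ u ∈ s, g u x = 0) ∨ Canc π s fun u => g u x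
    | some u0 => g u0 x ≠ 0 ∧ (∀ u ∈ s, π ^ vv (g u0 x) ∣ g u x) ∧ ¬ Canc π s fun u => g u x
  have hP : ∀ i, DP B (P i) := by
    rintro (_ | ⟨u0, h0⟩)
    · exact (DP.ball s fun u hu => (hg u hu).zero hπ).or (Df.canc hπ s hg)
    · exact ((hg u0 h0).zero hπ).not.and
        ((DP.ball s fun u hu => (hg u hu).dvd hπ (hg u0 h0).1).and (Df.canc hπ s hg).not)
  have hcov : ∀ x, ∃ i, P i x := by
    intro x
    by_cases h : Canc π s fun u => g u x
    · exact ⟨none, Or.inr h⟩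
    rcases exists_min hπ s fun u => g u x with h0 | ⟨u0, hu0, h1, h2⟩
    · exact ⟨none, Or.inl h0⟩
    · exact ⟨some ⟨u0, hu0⟩, h1, h2, h⟩
  have h0 : ∀ x, P none x → ∑ u ∈ s, g u x = 0 := fun x h =>
    h.elim (fun h => Finset.sum_eq_zero h) (hc x)
  have h1 : ∀ (u0 : s) x, P (some u0) x → vv (∑ u ∈ s, g u x) = vv (g u0 x) ∧
      ac π (∑ u ∈ s, g u x) =
        ∑ u ∈ s, (if vv (g u x) = vv (g u0 x) then ac π (g u x) else 0) := fun u0 x h =>
    (lead hπ s (fun u => g u x) _ h.2.1).2 fun h5 => h.2.2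
      ((canc_iff hπ s _).2 ⟨u0, u0.2, h.1, h.2.1, (lead hπ s (fun u => g u x) _ h.2.1).1.1 h5⟩)
  refine ⟨PA.cover hP (a := fun i x => match i with
      | none => 0
      | some u0 => (vv (g u0 x) : ℤ)) ?_ hcov ?_, fun ξ => DP.cover hP (Q := fun i x => match i with
      | none => 0 = ξ
      | some u0 => ∑ u ∈ s, (if vv (g u x) = vv (g u0 x) then ac π (g u x) else 0) = ξ)
      ?_ hcov ?_⟩
  · rintro (_ | ⟨u0, h0⟩)
    · exact PA.const 0
    · exact (hg u0 h0).1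
  · rintro (_ | u0) x h
    · simp only [h0 x h, vv_zero]; rfl
    · simp only [(h1 u0 x h).1]
  · rintro (_ | ⟨u0, h0⟩)
    · exact DP.const _
    · exact fd_lead s hg (hg u0 h0).1 ξ
  · rintro (_ | u0) x h
    · simp only [h0 x h, ac_zero]
    · simp only [(h1 u0 x h).2]

/-- A difference of functions which are equal when their leading terms are. -/
theorem Df.sub (hπ : Irreducible π) (hg : Df π B g) (hh : Df π B h)
    (hc : ∀ x, vv (g x) = vv (h x) → ac π (g x) = ac π (h x) → g x = h x) :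
    Df π B fun x => g x - h x := by
  have key := Df.sum hπ (Finset.univ : Finset Bool) (B := B)
    (g := fun b x => if b then g x else -h x)
    (fun b _ => by cases b; exacts [hh.neg hπ, hg]) (fun x hx => by
      obtain ⟨m, h1, ⟨u, -, h2⟩, h3⟩ := hx
      have a1 : π ^ m ∣ g x := h1 true (Finset.mem_univ _)
      have a2 : π ^ m ∣ h x := (dvd_neg).1 (h1 false (Finset.mem_univ _))
      simp only [Fintype.sum_bool, if_true, Bool.false_eq_true, if_false,
        ← sub_eq_add_neg] at h3 ⊢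
      have a3 : ¬ π ^ (m + 1) ∣ h x := fun a => h2 (by
        cases u
        · exact dvd_neg.2 a
        · simpa using dvd_add h3 a)
      rw [pow_dvd_iff hπ] at a2 a3
      push Not at a3
      have a4 : vv (h x) = m := by have := a2.resolve_left a3.1; omega
      obtain ⟨b1, b2⟩ := (rv_eq_iff hπ a3.1).2 (a4 ▸ h3)
      rw [hc x b1 b2, sub_self])
  exact key.eq fun x => by simp [sub_eq_add_neg]

end Df

end Pool.Agent.MP_4f1c5b_al.H20
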